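import Pool.Agent.H366R2.DensC
import Pool.Agent.H320R2.PDGam

/-! The decay statement. -/

set_option autoImplicit false

namespace Pool.Agent.H366R2.PDK

theorem decay : Pool.Agent.H320R2.PD.DecayStmt := Pool.Agent.H320R2.PD.gam_decay

end Pool.Agent.H366R2.PDK
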