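import Pool.Agent.H366R2.DensA

/-! Positive density of backward trees of the `3x+k` maps: the main theorem, from the statements
of the quenched inequality and of the good class. -/

set_option autoImplicit false

namespace Pool.Agent.H366R2.PDK

open Finset Pool.Agent.H320R2.PD Pool.Agent.H320R2.PD.Cnt Pool.Agent.H366R2.KGen

theorem coprime_k {k : ℤ} (hk3 : ¬ (3 : ℤ) ∣ k) (M : ℕ) : IsCoprime k ((3 : ℤ) ^ M) := by
  apply IsCoprime.pow_right
  rw [Int.isCoprime_iff_gcd_eq_one]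
  have := (Nat.Prime.coprime_iff_not_dvd Nat.prime_three (n := k.natAbs)).mpr
    (fun h => hk3 (by rwa [← Int.natCast_dvd] at h))
  rw [Int.gcd_comm]
  exact this

open Pool.Agent.H412R2 in
/-- every class mod `3^N` prime to 3 contains a `3x+k` predecessor of `a`, of the sign of `a`, as
soon as `a` is large -/
theorem hitK (k : ℤ) (hk2 : k % 2 = 1) (hk3 : ¬ (3 : ℤ) ∣ k) (N : ℕ) (hN : 1 ≤ N) (r : ℤ)
    (hr : ¬ (3 : ℤ) ∣ r) : ∃ B : ℤ, ∀ a : ℤ, ¬ (3 : ℤ) ∣ a → B < |a| →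
      ∃ (x : ℤ) (j : ℕ), (TK k)^[j] x = a ∧ 0 < x * a ∧ (3 : ℤ) ^ N ∣ x - k * r := by
  obtain ⟨n₁, hn₁⟩ := hit_unif N r hr
  refine ⟨|k| * 3 ^ n₁, fun a ha hB => ?_⟩
  set M := n₁ + N with hM
  obtain ⟨u, v, huv⟩ := coprime_k hk3 M
  set y : ℤ := a * u with hy
  have hyk : a - k * y = 3 ^ M * (a * v) := by
    have : a = a * (u * k + v * 3 ^ M) := by rw [huv, mul_one]
    rw [hy]
    linear_combination this
  have hy3 : ¬ (3 : ℤ) ∣ y := by
    intro h
    apply ha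
    have h1 : (3 : ℤ) ∣ 3 ^ M * (a * v) := Dvd.dvd.mul_right (dvd_pow_self 3 (by omega)) _
    have h2 : (3 : ℤ) ∣ k * y := Dvd.dvd.mul_left h k
    have h3 : a = 3 ^ M * (a * v) + k * y := by linarith
    rw [h3]
    exact dvd_add h1 h2
  obtain ⟨E, n, s, z, hn, hz, hcl⟩ := hn₁ y hy3
  set t : ℤ := 3 ^ (M - n) * (a * v) with ht
  have hyt : a - k * y = 3 ^ n * t := by
    have e0 : (3 : ℤ) ^ M = 3 ^ n * 3 ^ (M - n) := by rw [← pow_add, Nat.add_sub_cancel' (by omega)]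
    rw [hyk, ht, e0]
    ring
  have hNt : (3 : ℤ) ^ N ∣ t := by
    rw [ht]
    exact Dvd.dvd.mul_right (pow_dvd_pow 3 (by omega)) _
  obtain ⟨j, hj⟩ := transfer_reach hk2 hyt hz
  have o1 := tr_off_nonneg (by norm_num) hz
  have o2 := tr_off_le (by norm_num) hz
  push_cast at o1 o2
  have ha0 : 0 < |a| := lt_of_le_of_lt (by positivity) hB
  -- the sign
  have hsign : 0 < (k * z + 2 ^ s * t) * a := by
    have e1 : 3 ^ n * ((k * z + 2 ^ s * t) * a) = 2 ^ s * (|a| * |a|) - k * (2 ^ s * y - 3 ^ n * z) * a := by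
      rw [abs_mul_abs_self]
      linear_combination (-(2 : ℤ) ^ s * a) * hyt
    have e2 : k * (2 ^ s * y - 3 ^ n * z) * a ≤ |k| * (2 ^ s * 3 ^ n) * |a| := by
      have e3 : |k * (2 ^ s * y - 3 ^ n * z) * a| = |k| * (2 ^ s * y - 3 ^ n * z) * |a| := by
        rw [abs_mul, abs_mul, abs_of_nonneg o1]
      refine (le_abs_self _).trans ?_
      rw [e3]
      gcongr
    have e4 : |k| * 3 ^ n ≤ |k| * 3 ^ n₁ :=
      mul_le_mul_of_nonneg_left (pow_le_pow_right₀ (by norm_num) hn) (abs_nonneg k)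
    have e5 : 0 < 2 ^ s * |a| * (|a| - |k| * 3 ^ n) := by
      apply mul_pos (by positivity)
      linarith
    have e6 : 0 < 3 ^ n * ((k * z + 2 ^ s * t) * a) := by
      rw [e1]
      have : 2 ^ s * |a| * (|a| - |k| * 3 ^ n) =
          2 ^ s * (|a| * |a|) - |k| * (2 ^ s * 3 ^ n) * |a| := by ring
      linarith
    exact (mul_pos_iff_of_pos_left (by positivity)).1 e6
  rcases hcl with h | h
  · refine ⟨k * z + 2 ^ s * t, j, hj, hsign, ?_⟩
    have e : k * z + 2 ^ s * t - k * r = k * (z - r) + 2 ^ s * t := by ring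
    rw [e]
    exact dvd_add (Dvd.dvd.mul_left h k) (Dvd.dvd.mul_left hNt _)
  · set m := Nat.totient (3 ^ N) with hm
    have hm0 : 0 < m := Nat.totient_pos.2 (by positivity)
    have h2 := two_pow_tot N
    rw [← hm] at h2
    obtain ⟨m', hm'⟩ : ∃ m', m = m' + 1 := ⟨m - 1, by omega⟩
    refine ⟨2 ^ m' * (k * z + 2 ^ s * t), j + m', ?_, ?_, ?_⟩
    · rw [Function.iterate_add_apply, TK_halves]
      exact hj
    · have e : 2 ^ m' * (k * z + 2 ^ s * t) * a = 2 ^ m' * ((k * z + 2 ^ s * t) * a) := by ring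
      rw [e]
      exact mul_pos (by positivity) hsign
    · have e : 2 ^ m' * (k * z + 2 ^ s * t) - k * r = 2 ^ m' * k * (z - 2 * r) +
          (2 ^ (m' + 1) - 1) * (k * r) + 2 ^ m' * 2 ^ s * t := by ring
      rw [e]
      apply dvd_add (dvd_add (Dvd.dvd.mul_left h _) _) (Dvd.dvd.mul_left hNt _)
      rw [← hm']
      exact Dvd.dvd.mul_right h2 _

/-- positive lower density of the backward trees of the `3x+k` maps, with a logarithmic number of
steps and with the sign of the root -/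
theorem dens_k_of (quenched : QStmt) (good_class : GoodClassStmt)
    (k : ℤ) (hk2 : k % 2 = 1) (hk3 : ¬ (3 : ℤ) ∣ k) (a : ℤ) (ha : ¬ (3 : ℤ) ∣ a) :
    ∃ c C X0 : ℝ, 0 < c ∧ ∀ X : ℝ, X0 ≤ X → ∃ S : Finset ℤ,
      (∀ z ∈ S, ((|z| : ℤ) : ℝ) ≤ X ∧ 0 < z * a ∧
        ∃ j : ℕ, (j : ℝ) ≤ C * Real.log X ∧ (TK k)^[j] z = a) ∧ c * X ≤ S.card := by
  classical
  have hk0 : k ≠ 0 := by rintro rfl; simp at hk2
  have ha0 : a ≠ 0 := by rintro rfl; exact ha (dvd_zero _)
  obtain ⟨N0, N, r, hN0, hN1, hr, hU⟩ := good_class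
  obtain ⟨K, hK1, hK⟩ := count_unif quenched hN0
  obtain ⟨B, hB⟩ := hitK k hk2 hk3 N hN1 r hr
  obtain ⟨J, hJ⟩ := pow_unbounded_of_one_lt B (by norm_num : (1 : ℤ) < 2)
  have haJ : (2 : ℤ) ^ J * a ≠ 0 := mul_ne_zero (by positivity) ha0
  obtain ⟨j0, hj0⟩ := exists_nonperiodicK k haJ
  set a' : ℤ := 2 ^ j0 * (2 ^ J * a) with ha'
  have ha'3 : ¬ (3 : ℤ) ∣ a' := by
    intro h
    rw [ha', ← mul_assoc, ← pow_add] at h
    have hc : IsCoprime (3 : ℤ) (2 ^ (j0 + J)) := IsCoprime.pow_right (by norm_num)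
    exact ha (hc.dvd_of_dvd_mul_left h)
  have haabs : (1 : ℤ) ≤ |a| := Int.one_le_abs ha0
  have ha'B : B < |a'| := by
    have e : |a'| = 2 ^ j0 * (2 ^ J * |a|) := by
      rw [ha', abs_mul, abs_mul, abs_of_pos (by positivity : (0 : ℤ) < 2 ^ j0),
        abs_of_pos (by positivity : (0 : ℤ) < 2 ^ J)]
    rw [e]
    have h1 : (1 : ℤ) ≤ 2 ^ j0 := one_le_pow₀ (by norm_num)
    have h2 : (0 : ℤ) < 2 ^ J := by positivity
    have h3 : (2 : ℤ) ^ J ≤ 2 ^ J * |a| := by nlinarith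
    have h4 : (2 : ℤ) ^ J * |a| ≤ 2 ^ j0 * (2 ^ J * |a|) := by nlinarith
    linarith
  obtain ⟨x, j1, hx1, hx2, hx3⟩ := hB a' ha'3 ha'B
  have hx0 : x ≠ 0 := by rintro rfl; simp at hx2
  -- enlarge the root inside its class
  set φ := Nat.totient (3 ^ N) with hφ
  have hφ0 : 0 < φ := Nat.totient_pos.2 (by positivity)
  obtain ⟨I, hI⟩ := pow_unbounded_of_one_lt (|k| * (5 * 2 ^ N0)) (by norm_num : (1 : ℤ) < 2)
  set b : ℤ := 2 ^ (φ * I) * x with hb
  have hbabs : |k| * (5 * 2 ^ N0) < |b| := by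
    have e : |b| = 2 ^ (φ * I) * |x| := by
      rw [hb, abs_mul, abs_of_pos (by positivity : (0 : ℤ) < 2 ^ (φ * I))]
    rw [e]
    have h1 : (1 : ℤ) ≤ |x| := Int.one_le_abs hx0
    have h2 : (2 : ℤ) ^ I ≤ 2 ^ (φ * I) :=
      pow_le_pow_right₀ (by norm_num) (Nat.le_mul_of_pos_left _ hφ0)
    have h3 : (0 : ℤ) < 2 ^ (φ * I) := by positivity
    nlinarith
  have hbcl : (3 : ℤ) ^ N ∣ b - k * r := by
    have h1 : (3 : ℤ) ^ N ∣ 2 ^ (φ * I) - 1 := by
      have h2 := two_pow_tot N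
      rw [← hφ] at h2
      have h3 : ((2 : ℤ) ^ φ - 1) ∣ ((2 ^ φ) ^ I - 1 ^ I) := sub_dvd_pow_sub_pow _ _ _
      rw [one_pow, ← pow_mul] at h3
      exact h2.trans h3
    have e : b - k * r = (2 ^ (φ * I) - 1) * x + (x - k * r) := by rw [hb]; ring
    rw [e]
    exact dvd_add (Dvd.dvd.mul_right h1 _) hx3
  have hbx : (TK k)^[φ * I] b = x := by rw [hb, TK_halves]
  have hba' : (TK k)^[j1 + φ * I] b = a' := by
    rw [Function.iterate_add_apply, hbx, hx1]
  have hba : (TK k)^[J + (j0 + (j1 + φ * I))] b = a := by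
    rw [Function.iterate_add_apply, Function.iterate_add_apply, hba', ha', TK_halves, TK_halves]
  have hbnp : ∀ i, 1 ≤ i → (TK k)^[i] b ≠ b := by
    intro i hi h
    apply hj0 i hi
    have h1 : (TK k)^[i] ((TK k)^[j1 + φ * I] b) = (TK k)^[j1 + φ * I] b := by
      rw [← Function.iterate_add_apply, add_comm, Function.iterate_add_apply, h]
    rw [hba'] at h1
    exact h1
  have hbsign : 0 < b * a := by
    have e : x * a' = 2 ^ (j0 + J) * (x * a) := by rw [ha', pow_add]; ring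
    rw [e] at hx2
    have h1 : 0 < x * a := (mul_pos_iff_of_pos_left (by positivity)).1 hx2
    have e2 : b * a = 2 ^ (φ * I) * (x * a) := by rw [hb]; ring
    rw [e2]
    exact mul_pos (by positivity) h1
  set j2 : ℕ := J + (j0 + (j1 + φ * I)) with hj2
  have hbabsR : |(k : ℝ)| * (5 * 2 ^ N0) < |(b : ℝ)| := by exact_mod_cast hbabs
  have hkR : 0 ≤ |(k : ℝ)| * (5 * 2 ^ N0) := by positivity
  set D : ℝ := |(b : ℝ)| + |(k : ℝ)| * (5 * 2 ^ N0) with hD
  have hb1 : (1 : ℝ) ≤ |(b : ℝ)| := by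
    have hb0 : b ≠ 0 := by rintro h; rw [h] at hbsign; simp at hbsign
    have : (1 : ℤ) ≤ |b| := Int.one_le_abs hb0
    exact_mod_cast this
  have hD1 : 1 ≤ D := by rw [hD]; linarith
  have hD0 : 0 < D := by linarith
  refine ⟨1 / (64 * D), 35 + j2, K * D + 3, by positivity, fun X hX => ?_⟩
  have hKD : 0 < K * D := by positivity
  have hX3 : 3 ≤ X := by linarith
  have hX0 : 0 < X := by linarith
  have hlogX : 1 ≤ Real.log X := by
    rw [Real.le_log_iff_exp_le hX0]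
    have := Real.exp_one_lt_d9
    linarith
  set Y : ℝ := X / D with hY
  have hKY : K ≤ Y := by rw [hY, le_div_iff₀ hD0]; linarith
  have hY1 : 1 ≤ Y := hK1.trans hKY
  have hYX : Y ≤ X := by rw [hY]; exact div_le_self hX0.le hD1
  have hlogY : Real.log Y ≤ Real.log X := Real.log_le_log (by linarith) hYX
  set M : ℕ := ⌈17 * Real.log Y⌉₊ + N with hM
  obtain ⟨u, v, huv⟩ := coprime_k hk3 M
  set y : ℤ := b * u with hy
  have hyk : b - k * y = 3 ^ M * (b * v) := by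
    have : b = b * (u * k + v * 3 ^ M) := by rw [huv, mul_one]
    rw [hy]
    linear_combination this
  have hyr : (3 : ℤ) ^ N ∣ y - r := by
    have h1 : (3 : ℤ) ^ N ∣ k * (y - r) := by
      have e : k * (y - r) = (b - k * r) - 3 ^ M * (b * v) := by linear_combination -hyk
      rw [e]
      exact dvd_sub hbcl (Dvd.dvd.mul_right (pow_dvd_pow 3 (by omega)) _)
    exact (coprime_k hk3 N).symm.dvd_of_dvd_mul_left h1
  obtain ⟨S, hS, hc⟩ := hK Y hKY y (hU y hyr)
  set f : List ℕ → ℤ := fun w => (2 ^ w.sum * b - k * Wo w) / 3 ^ w.length with hf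
  have hval : ∀ w ∈ S, (3 : ℤ) ^ w.length ∣ 2 ^ w.sum * b - k * Wo w := by
    intro w hw
    obtain ⟨_, h2, _, _, h5, _⟩ := hS w hw
    have h6 : w.length ≤ M := by
      have : (w.length : ℝ) ≤ ⌈17 * Real.log Y⌉₊ := h5.trans (Nat.le_ceil _)
      have h7 : w.length ≤ ⌈17 * Real.log Y⌉₊ := by exact_mod_cast this
      omega
    have e : 2 ^ w.sum * b - k * Wo w = k * (2 ^ w.sum * y - Wo w) +
        3 ^ M * (2 ^ w.sum * (b * v)) := by
      linear_combination (2 : ℤ) ^ w.sum * hyk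
    rw [e]
    exact dvd_add (Dvd.dvd.mul_left h2 k) (Dvd.dvd.mul_right (pow_dvd_pow 3 h6) _)
  have hq : ∀ w ∈ S, (3 : ℝ) ^ w.length * (f w : ℝ) = 2 ^ w.sum * b - k * Wo w := by
    intro w hw
    have h1 : (3 : ℤ) ^ w.length * f w = 2 ^ w.sum * b - k * Wo w := Int.mul_ediv_cancel' (hval w hw)
    exact_mod_cast h1
  have hWk : ∀ w ∈ S, |(k : ℝ) * Wo w| ≤ |(k : ℝ)| * (5 * 2 ^ N0) * 2 ^ w.sum := by
    intro w hw
    obtain ⟨_, _, _, h4, _, _⟩ := hS w hw
    rw [abs_mul, abs_of_nonneg (by positivity : (0 : ℝ) ≤ (Wo w : ℝ)), mul_assoc]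
    exact mul_le_mul_of_nonneg_left h4 (abs_nonneg _)
  refine ⟨S.image f, ?_, ?_⟩
  · intro z hz
    obtain ⟨w, hw, rfl⟩ := Finset.mem_image.1 hz
    obtain ⟨h1, h2, h3, h4, h5, h6⟩ := hS w hw
    have e1 := hq w hw
    have e2 := hWk w hw
    have h2s : (0 : ℝ) < 2 ^ w.sum := by positivity
    refine ⟨?_, ?_, j2 + w.sum, ?_, ?_⟩
    · have e3 : (3 : ℝ) ^ w.length * |(f w : ℝ)| ≤ 3 ^ w.length * X := by
        have e4 : (3 : ℝ) ^ w.length * |(f w : ℝ)| = |(2 : ℝ) ^ w.sum * b - k * Wo w| := by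
          rw [← e1, abs_mul, abs_of_pos (by positivity : (0 : ℝ) < 3 ^ w.length)]
        rw [e4]
        have e5 := abs_sub ((2 : ℝ) ^ w.sum * b) ((k : ℝ) * Wo w)
        rw [abs_mul, abs_of_pos h2s] at e5
        calc _ ≤ (2 : ℝ) ^ w.sum * |(b : ℝ)| + |(k : ℝ) * Wo w| := e5
          _ ≤ (2 : ℝ) ^ w.sum * D := by rw [hD]; linarith
          _ ≤ (Y * 3 ^ w.length) * D := mul_le_mul_of_nonneg_right h3 hD0.le
          _ = 3 ^ w.length * X := by rw [hY]; field_simp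
      have e4 := le_of_mul_le_mul_left e3 (by positivity)
      exact_mod_cast e4
    · -- the sign
      have e3 : (0 : ℝ) < (f w : ℝ) * b := by
        have e4 : (3 : ℝ) ^ w.length * ((f w : ℝ) * b) =
            2 ^ w.sum * (|(b : ℝ)| * |(b : ℝ)|) - k * Wo w * b := by
          rw [abs_mul_abs_self]
          linear_combination (b : ℝ) * e1
        have e5 : (k : ℝ) * Wo w * b ≤ |(k : ℝ)| * (5 * 2 ^ N0) * 2 ^ w.sum * |(b : ℝ)| := by
          refine (le_abs_self _).trans ?_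
          rw [abs_mul]
          exact mul_le_mul_of_nonneg_right e2 (abs_nonneg _)
        have e6 : 0 < 2 ^ w.sum * |(b : ℝ)| * (|(b : ℝ)| - |(k : ℝ)| * (5 * 2 ^ N0)) := by
          apply mul_pos (by positivity)
          linarith
        have e7 : 0 < (3 : ℝ) ^ w.length * ((f w : ℝ) * b) := by
          rw [e4]
          have : 2 ^ w.sum * |(b : ℝ)| * (|(b : ℝ)| - |(k : ℝ)| * (5 * 2 ^ N0)) =
              2 ^ w.sum * (|(b : ℝ)| * |(b : ℝ)|) -
                |(k : ℝ)| * (5 * 2 ^ N0) * 2 ^ w.sum * |(b : ℝ)| := by ring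
          linarith
        exact (mul_pos_iff_of_pos_left (by positivity)).1 e7
      have e4 : 0 < f w * b := by exact_mod_cast e3
      have e5 : 0 < (f w * a) * (b * b) := by
        have : (f w * a) * (b * b) = (f w * b) * (b * a) := by ring
        rw [this]
        exact mul_pos e4 hbsign
      by_contra hcon
      push Not at hcon
      have := mul_nonpos_of_nonpos_of_nonneg hcon (mul_self_nonneg b)
      linarith
    · rw [Nat.cast_add]
      have h7 : (0 : ℝ) ≤ j2 := by positivity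
      nlinarith
    · rw [Function.iterate_add_apply, hf]
      simp only
      rw [endpoint_reachK hk2 h1 (hval w hw)]
      exact hba
  · rw [Finset.card_image_of_injOn]
    · calc 1 / (64 * D) * X = Y / 64 := by rw [hY]; field_simp
        _ ≤ S.card := hc
    · intro w hw w' hw' he
      exact endpoint_injK hk2 hk0 hbnp (hS w hw).1 (hS w' hw').1 (hval w hw) (hval w' hw') he

end Pool.Agent.H366R2.PDK
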