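import Pool.Agent.H412R2.Final

/-!
Backward trees of the `3x+k` maps: uniform version of the counting theorem of `Pool.Agent.H412R2`
and its transfer to `3x+k`.
-/

set_option autoImplicit false

namespace Pool.Agent.H366R2

open Pool.Agent.H412R2 Finset

namespace KGen

/-- along a path the endpoint is close to the start times the ratio -/
theorem path_off {q R : ℕ} (κ : Ker q R) (hq : 0 < q)
    (hω : ∀ x : ℤ, ¬ (q : ℤ) ∣ x → (q : ℝ) ^ R < 2 ^ (κ.S x))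
    (hoff : ∀ x b : ℤ, ¬ (q : ℤ) ∣ x → b ∈ κ.K x →
      |(q : ℤ) ^ R * b - 2 ^ (κ.S x) * x| ≤ 2 ^ κ.Smax * (q : ℤ) ^ R) (k : ℕ) :
    ∀ (s : ℕ) (x z : ℤ), ¬ (q : ℤ) ∣ x → Path κ.S κ.K k s x z →
      |(z : ℝ) - 2 ^ s / (q : ℝ) ^ (k * R) * x| ≤
        2 ^ κ.Smax * (q : ℝ) ^ R * (2 ^ s / (q : ℝ) ^ (k * R) - 1) := by
  induction k with
  | zero =>
    intro s x z hx h
    rw [CountThm.path_zero_iff] at h
    obtain ⟨rfl, rfl⟩ := h
    simp
  | succ k ih =>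
    intro s x z hx h
    rw [CountThm.path_succ_iff] at h
    obtain ⟨s', b, rfl, hb, hp⟩ := h
    have h1 := ih s' b z (κ.hlive x b hx hb) hp
    have h2 := hoff x b hx hb
    have h2' : |(q : ℝ) ^ R * (b : ℝ) - 2 ^ (κ.S x) * (x : ℝ)| ≤ 2 ^ κ.Smax * (q : ℝ) ^ R := by
      exact_mod_cast h2
    have hqR : (0 : ℝ) < (q : ℝ) ^ R := by positivity
    have h3 : (q : ℝ) ^ R + 1 ≤ 2 ^ (κ.S x) := by
      have := hω x hx
      have h4 : q ^ R < 2 ^ (κ.S x) := by exact_mod_cast this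
      exact_mod_cast h4
    have hM : (0 : ℝ) < 2 ^ κ.Smax := by positivity
    set ρ : ℝ := 2 ^ s' / (q : ℝ) ^ (k * R) with hρ
    have hρ0 : 0 < ρ := by rw [hρ]; positivity
    set ω : ℝ := 2 ^ (κ.S x) / (q : ℝ) ^ R with hωd
    have h5 : |(b : ℝ) - ω * x| ≤ 2 ^ κ.Smax := by
      have e : (q : ℝ) ^ R * (b : ℝ) - 2 ^ (κ.S x) * (x : ℝ) = (q : ℝ) ^ R * ((b : ℝ) - ω * x) := by
        rw [hωd]; field_simp
      rw [e, abs_mul, abs_of_pos hqR] at h2'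
      have : (q : ℝ) ^ R * |(b : ℝ) - ω * x| ≤ (q : ℝ) ^ R * 2 ^ κ.Smax := by linarith
      exact le_of_mul_le_mul_left this hqR
    have h6 : 1 / (q : ℝ) ^ R ≤ ω - 1 := by
      rw [hωd, div_le_iff₀ hqR, sub_mul, div_mul_cancel₀ _ hqR.ne']
      linarith
    have e7 : (2 : ℝ) ^ (s' + κ.S x) / (q : ℝ) ^ ((k + 1) * R) = ρ * ω := by
      rw [hρ, hωd, Nat.succ_mul, pow_add, pow_add]
      field_simp
    rw [e7]
    have h8 : |(z : ℝ) - ρ * ω * x| ≤ |(z : ℝ) - ρ * b| + ρ * |(b : ℝ) - ω * x| := by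
      have e : (z : ℝ) - ρ * ω * x = ((z : ℝ) - ρ * b) + ρ * ((b : ℝ) - ω * x) := by ring
      rw [e]
      refine (abs_add_le _ _).trans ?_
      rw [abs_mul, abs_of_pos hρ0]
    have h9 : ρ * |(b : ℝ) - ω * x| ≤ ρ * 2 ^ κ.Smax := mul_le_mul_of_nonneg_left h5 hρ0.le
    have h10 : ρ * 2 ^ κ.Smax ≤ ρ * (2 ^ κ.Smax * (q : ℝ) ^ R * (ω - 1)) := by
      apply mul_le_mul_of_nonneg_left _ hρ0.le
      have := mul_le_mul_of_nonneg_left h6 (by positivity : (0 : ℝ) ≤ 2 ^ κ.Smax * (q : ℝ) ^ R)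
      have e : (2 : ℝ) ^ κ.Smax * (q : ℝ) ^ R * (1 / (q : ℝ) ^ R) = 2 ^ κ.Smax := by field_simp
      rwa [e] at this
    calc _ ≤ _ := h8
      _ ≤ 2 ^ κ.Smax * (q : ℝ) ^ R * (ρ - 1) + ρ * (2 ^ κ.Smax * (q : ℝ) ^ R * (ω - 1)) := by
        linarith
      _ = 2 ^ κ.Smax * (q : ℝ) ^ R * (ρ * ω - 1) := by ring

/-- uniform lower bound for the number of endpoints at one level and one size -/
theorem uniform_aux {q R : ℕ} (κ : Ker q R) (hq : 0 < q) (σ : ℝ) (hσ : 0 < σ)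
    (hω : ∀ x : ℤ, ¬ (q : ℤ) ∣ x → (q : ℝ) ^ R < 2 ^ (κ.S x))
    (N : ℕ) (hN : 1 ≤ N)
    (hZ : ∀ x : ℤ, ¬ (q : ℤ) ∣ x → 1 ≤ CountThm.ZZ κ σ N x) :
    ∃ c C : ℝ, 0 < c ∧ 0 < C ∧ ∀ y : ℤ, ¬ (q : ℤ) ∣ y → ∀ B : ℝ, 1 ≤ B → ∃ j s : ℕ,
      (j : ℝ) ≤ C * (1 + Real.log B) ∧ (2 : ℝ) ^ s ≤ B * (q : ℝ) ^ (j * R) ∧
        c * B ^ σ ≤ (CountThm.En κ j s y).card * (1 + Real.log B) ^ 2 := by
  classical
  have hqR : (0 : ℝ) < (q : ℝ) ^ R := by positivity
  have hqR1 : (1 : ℝ) ≤ (q : ℝ) ^ R := one_le_pow₀ (by exact_mod_cast hq)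
  set w : ℝ := 1 + 1 / (q : ℝ) ^ R with hwdef
  have hw : 1 < w := by
    rw [hwdef]
    have : 0 < 1 / (q : ℝ) ^ R := by positivity
    linarith
  set W : ℝ := 2 ^ κ.Smax with hWdef
  have hW : 1 ≤ W := one_le_pow₀ (by norm_num)
  have hlow : ∀ x : ℤ, ¬ (q : ℤ) ∣ x → w ≤ CountThm.om κ x := by
    intro x hx
    have h3 : (q : ℝ) ^ R + 1 ≤ 2 ^ (κ.S x) := by
      have := hω x hx
      have h4 : q ^ R < 2 ^ (κ.S x) := by exact_mod_cast this
      exact_mod_cast h4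
    rw [CountThm.om, le_div_iff₀ hqR, hwdef, add_mul, div_mul_cancel₀ _ hqR.ne']
    linarith
  have hup : ∀ x : ℤ, ¬ (q : ℤ) ∣ x → CountThm.om κ x ≤ W := by
    intro x hx
    rw [CountThm.om, div_le_iff₀ hqR]
    calc (2 : ℝ) ^ (κ.S x) ≤ 2 ^ κ.Smax := pow_le_pow_right₀ (by norm_num) (κ.hSmax x)
      _ ≤ W * (q : ℝ) ^ R := le_mul_of_one_le_right (by positivity) hqR1
  have hlw : 0 < Real.log w := Real.log_pos hw
  have hNpos : (0 : ℝ) < N := by exact_mod_cast hN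
  set C1 : ℝ := 2 + 1 / (N * Real.log w) with hC1
  have hC1pos : 0 < C1 := by positivity
  set C2 : ℝ := N * κ.Smax * C1 + 1 with hC2
  have hC2pos : 0 < C2 := by positivity
  have hWN : 0 < W ^ N := by positivity
  have hWNσ : 0 < (W ^ N) ^ σ := by positivity
  refine ⟨1 / (2 * ((W ^ N) ^ σ * (C1 * C2))), N * C1, by positivity, by positivity, ?_⟩
  intro y hy B hB1
  have hB0 : 0 < B := by linarith
  have hlB : 0 ≤ Real.log B := Real.log_nonneg hB1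
  set M : ℕ := ⌈Real.log B / (N * Real.log w)⌉₊ with hM
  have hM1 : B ≤ (w ^ N) ^ M := by
    have h1 : Real.log B / (N * Real.log w) ≤ M := Nat.le_ceil _
    rw [div_le_iff₀ (by positivity)] at h1
    have h2 : Real.log B ≤ Real.log ((w ^ N) ^ M) := by
      rw [Real.log_pow, Real.log_pow]
      exact h1
    exact (Real.log_le_log_iff (by linarith) (by positivity)).1 h2
  have hM2 : (M : ℝ) + 1 ≤ C1 * (1 + Real.log B) := by
    have h1 : (M : ℝ) < Real.log B / (N * Real.log w) + 1 := Nat.ceil_lt_add_one (by positivity)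
    have h4 : Real.log B / (N * Real.log w) = 1 / (N * Real.log w) * Real.log B := by ring
    have h5 : 0 ≤ 1 / (N * Real.log w) := by positivity
    rw [hC1]
    nlinarith
  have hmain := CountThm.main_lower κ hq hw hlow hup hW hσ N hZ M y hy B hB1 hM1
  by_contra hcon
  push Not at hcon
  set L : ℝ := 1 + Real.log B with hL
  have hL1 : 1 ≤ L := by rw [hL]; linarith
  set X : ℝ := 1 / (2 * ((W ^ N) ^ σ * (C1 * C2))) * B ^ σ with hX
  have hX0 : 0 < X := by rw [hX]; positivity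
  have hterm : ∀ m ∈ range (M + 1), CountThm.EE κ (N * m) y B ≤ (N * M * κ.Smax + 1) * (X / L ^ 2) := by
    intro m hm
    have hm' : m ≤ M := by rw [mem_range] at hm; omega
    have hj : ((N * m : ℕ) : ℝ) ≤ N * C1 * L := by
      push_cast
      have h1 : (m : ℝ) ≤ M := by exact_mod_cast hm'
      have h2 : (m : ℝ) ≤ C1 * L := by linarith
      calc (N : ℝ) * m ≤ N * (C1 * L) := mul_le_mul_of_nonneg_left h2 hNpos.le
        _ = _ := by ring
    have h2 : ∀ s ∈ range (N * m * κ.Smax + 1),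
        (if (2 : ℝ) ^ s ≤ B * (q : ℝ) ^ (N * m * R) then ((CountThm.En κ (N * m) s y).card : ℝ) else 0)
          ≤ X / L ^ 2 := by
      intro s hs
      split_ifs with hcond
      · have := hcon (N * m) s hj hcond
        rw [le_div_iff₀ (by positivity)]
        exact this.le
      · positivity
    calc CountThm.EE κ (N * m) y B ≤ ∑ s ∈ range (N * m * κ.Smax + 1), X / L ^ 2 := by
          rw [CountThm.EE]
          exact Finset.sum_le_sum h2
      _ = ((N * m * κ.Smax + 1 : ℕ) : ℝ) * (X / L ^ 2) := by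
          rw [Finset.sum_const, card_range, nsmul_eq_mul]
      _ ≤ (N * M * κ.Smax + 1) * (X / L ^ 2) := by
          refine mul_le_mul_of_nonneg_right ?_ (by positivity)
          have h3 : N * m * κ.Smax + 1 ≤ N * M * κ.Smax + 1 := by gcongr
          exact_mod_cast h3
  have hsum : ∑ m ∈ range (M + 1), CountThm.EE κ (N * m) y B ≤
      ((M : ℝ) + 1) * ((N * M * κ.Smax + 1) * (X / L ^ 2)) := by
    calc _ ≤ ∑ m ∈ range (M + 1), ((N * M * κ.Smax + 1) * (X / L ^ 2) : ℝ) := Finset.sum_le_sum hterm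
      _ = _ := by
        rw [Finset.sum_const, card_range, nsmul_eq_mul]
        push_cast
        ring
  have hC : ((N : ℝ) * M * κ.Smax + 1) ≤ C2 * L := by
    have h1 : (M : ℝ) ≤ C1 * L := by linarith
    have h2 : (N : ℝ) * κ.Smax * M ≤ N * κ.Smax * (C1 * L) :=
      mul_le_mul_of_nonneg_left h1 (by positivity)
    rw [hC2]
    nlinarith
  have h7 : ((M : ℝ) + 1) * ((N * M * κ.Smax + 1) * (X / L ^ 2)) ≤
      (C1 * L) * ((C2 * L) * (X / L ^ 2)) := by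
    gcongr
  have h8 : (C1 * L) * ((C2 * L) * (X / L ^ 2)) = C1 * C2 * X := by
    field_simp
  have h9 : (B / W ^ N) ^ σ = B ^ σ / (W ^ N) ^ σ := Real.div_rpow hB0.le hWN.le σ
  have h10 : C1 * C2 * X = B ^ σ / (W ^ N) ^ σ / 2 := by
    rw [hX]; field_simp
  have h11 : 0 < B ^ σ / (W ^ N) ^ σ := by positivity
  rw [h9] at hmain
  linarith

/-- uniform lower bound for the number of words of the backward `3x+1` tree -/
theorem uniform_words (σ : ℝ) (hσ : 0 < σ) (hσ1 : σ < 1) :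
    ∃ c C C₁ : ℝ, 0 < c ∧ 0 < C ∧ 0 < C₁ ∧ ∀ y : ℤ, ¬ (3 : ℤ) ∣ y → ∀ B : ℝ, 1 ≤ B →
      ∃ (E n s : ℕ) (G : Finset ℤ), (n : ℝ) ≤ C * (1 + Real.log B) ∧ (2 : ℝ) ^ s ≤ B * 3 ^ n ∧
        (∀ z ∈ G, z ∈ tr 3 E n s y ∧ |(z : ℝ) - 2 ^ s / 3 ^ n * y| ≤ C₁ * (2 ^ s / 3 ^ n)) ∧
        c * B ^ σ ≤ G.card := by
  set σ' : ℝ := (1 + σ) / 2 with hσ'
  have hs1 : σ' < 1 := by rw [hσ']; linarith
  have hs2 : σ < σ' := by rw [hσ']; linarith
  have hs0 : 0 < σ' := by linarith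
  have hc := c2_gt
  set η : ℝ := (1 - σ') * c2 / 4 with hη
  have hη4 : η ≤ c2 / 4 := by
    rw [hη]
    have : 0 ≤ σ' * c2 := by
      apply mul_nonneg <;> linarith
    linarith
  obtain ⟨T, hT, hpos⟩ := ker_hpos typical σ' η hs1 hη
  set κ := ker η T hη4 hT with hκ
  have hω : ∀ x : ℤ, ¬ ((3 : ℕ) : ℤ) ∣ x → ((3 : ℕ) : ℝ) ^ T < 2 ^ (κ.S x) := by
    intro x _
    have h := two_pow_gt (by omega) (SS_ge η T x)
    change ((3 : ℕ) : ℝ) ^ T < 2 ^ (SS η T x)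
    exact_mod_cast h
  have hoff : ∀ x b : ℤ, ¬ ((3 : ℕ) : ℤ) ∣ x → b ∈ κ.K x →
      |((3 : ℕ) : ℤ) ^ T * b - 2 ^ (κ.S x) * x| ≤ 2 ^ κ.Smax * ((3 : ℕ) : ℤ) ^ T := by
    intro x b _ hb
    change |((3 : ℕ) : ℤ) ^ T * b - 2 ^ (SS η T x) * x| ≤ 2 ^ (6 * T) * ((3 : ℕ) : ℤ) ^ T
    have hb' : b ∈ tr 3 (6 * T) T (SS η T x) x := (Finset.mem_filter.1 hb).1
    have a1 := tr_off_nonneg (by norm_num) hb'
    have a2 := tr_off_le (by norm_num) hb'
    have h2 : (2 : ℤ) ^ (SS η T x) * ((3 : ℕ) : ℤ) ^ T ≤ 2 ^ (6 * T) * ((3 : ℕ) : ℤ) ^ T := by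
      apply mul_le_mul_of_nonneg_right _ (by positivity)
      exact pow_le_pow_right₀ (by norm_num) (SS_le η T x)
    rw [abs_le]
    constructor <;> linarith
  -- positivity
  set g : ℤ → ℝ := fun x => Real.log ((κ.K x).card) - σ' * Real.log (2 ^ (κ.S x) / ((3 : ℕ) : ℝ) ^ T)
    with hgdef
  have hper : ∀ x y : ℤ, ¬ ((3 : ℕ) : ℤ) ∣ x → g (x + ((3 : ℕ) : ℤ) ^ (T + 1) * y) = g x := by
    intro x y hx
    have hcard : (κ.K (x + ((3 : ℕ) : ℤ) ^ (T + 1) * y)).card = (κ.K x).card := by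
      have himg : κ.K (x + ((3 : ℕ) : ℤ) ^ (T + 1) * y) =
          (κ.K x).image (fun b => b + 2 ^ (κ.S x) * (((3 : ℕ) : ℤ) * y)) := by
        ext z
        rw [Finset.mem_image]
        constructor
        · intro hz
          refine ⟨z - 2 ^ (κ.S x) * (((3 : ℕ) : ℤ) * y), ?_, by ring⟩
          rw [← κ.hK x y _ hx]
          simpa using hz
        · rintro ⟨b, hb, rfl⟩
          exact (κ.hK x y b hx).2 hb
      rw [himg, Finset.card_image_of_injective]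
      intro b b' h
      simpa using h
    simp only [hgdef]
    rw [hcard, κ.hS x y hx]
  obtain ⟨N, hN, hNpos⟩ := positive κ Nat.prime_three (by norm_num) (by omega) g hper
    (by
      intro r hr
      exact hpos r hr)
  have hZ : ∀ x : ℤ, ¬ ((3 : ℕ) : ℤ) ∣ x → 1 ≤ CountThm.ZZ κ σ' N x := by
    intro x hx
    obtain ⟨h1, h2⟩ := CountThm.log_ZZ κ (by norm_num) σ' g (fun x => rfl) N x hx
    have h3 : 0 < Real.log (CountThm.ZZ κ σ' N x) := lt_of_lt_of_le (hNpos x hx) h2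
    exact ((Real.log_pos_iff h1.le).1 h3).le
  obtain ⟨c, C, hc0, hC0, hmain⟩ := uniform_aux κ (by norm_num) σ' hs0 hω N hN hZ
  have hd : 0 < (σ' - σ) / 2 := by linarith
  have hTpos : (0 : ℝ) < T := by
    have : 0 < T := by omega
    exact_mod_cast this
  refine ⟨c / (1 + 1 / ((σ' - σ) / 2)) ^ 2, T * C, 2 ^ κ.Smax * 3 ^ T, by positivity, by positivity,
    by positivity, ?_⟩
  intro y hy B hB
  obtain ⟨j, s, h1, h2, h3⟩ := hmain y (by exact_mod_cast hy) B hB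
  refine ⟨6 * T, T * j, s, CountThm.En κ j s y, ?_, ?_, ?_, absorb hB hs2 (by positivity) h3⟩
  · push_cast
    calc (T : ℝ) * j ≤ T * (C * (1 + Real.log B)) := mul_le_mul_of_nonneg_left h1 hTpos.le
      _ = _ := by ring
  · rw [mul_comm T j]
    exact_mod_cast h2
  · intro z hz
    rw [CountThm.mem_En] at hz
    refine ⟨path_tr hz, ?_⟩
    have h4 := path_off κ (by norm_num) hω hoff j s y z (by exact_mod_cast hy) hz
    rw [mul_comm T j]
    push_cast at h4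
    refine h4.trans ?_
    have h5 : (0 : ℝ) ≤ 2 ^ κ.Smax * 3 ^ T := by positivity
    nlinarith

/-! ### the `3x+k` maps -/

/-- the `3x+k` map -/
def TK (k m : ℤ) : ℤ := if m % 2 = 0 then m / 2 else (3 * m + k) / 2

theorem TK_halves (k : ℤ) (m : ℕ) (x : ℤ) : (TK k)^[m] (2 ^ m * x) = x := by
  induction m with
  | zero => simp
  | succ m ih =>
    rw [Function.iterate_succ_apply]
    have : TK k (2 ^ (m + 1) * x) = 2 ^ m * x := by
      have e : (2 : ℤ) ^ (m + 1) * x = 2 * (2 ^ m * x) := by ring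
      unfold TK
      rw [e, if_pos (by omega)]
      omega
    rw [this, ih]

theorem transfer_reach {k : ℤ} (hk : k % 2 = 1) {E n : ℕ} : ∀ {s : ℕ} {x y z u : ℤ},
    x - k * y = 3 ^ n * u → z ∈ tr 3 E n s y → ∃ j, (TK k)^[j] (k * z + 2 ^ s * u) = x := by
  induction n with
  | zero =>
    intro s x y z u hu hz
    rw [mem_tr_zero] at hz
    obtain ⟨rfl, rfl⟩ := hz
    refine ⟨0, ?_⟩
    simp only [Function.iterate_zero, id_eq, pow_zero, one_mul] at hu ⊢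
    linarith
  | succ n ih =>
    intro s x y z u hu hz
    obtain ⟨e, b, he, _, hes, hb, hz'⟩ := (mem_tr_succ (by norm_num)).1 hz
    push_cast at hb
    obtain ⟨j, hj⟩ := ih (x := k * b + 3 ^ n * (2 ^ e * u)) (y := b) (u := 2 ^ e * u) (by ring) hz'
    obtain ⟨e', rfl⟩ : ∃ e', e = e' + 1 := ⟨e - 1, by omega⟩
    refine ⟨e' + (1 + j), ?_⟩
    have h1 : (2 : ℤ) ^ (s - (e' + 1)) * (2 ^ (e' + 1) * u) = 2 ^ s * u := by
      rw [← mul_assoc, ← pow_add, Nat.sub_add_cancel hes]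
    rw [h1] at hj
    rw [Function.iterate_add_apply, Function.iterate_add_apply, hj, Function.iterate_one]
    have h2 : 3 * (k * b + 3 ^ n * (2 ^ (e' + 1) * u)) + k = 2 * (2 ^ e' * x) := by
      have h3 : 3 * (k * b + 3 ^ n * (2 ^ (e' + 1) * u)) + k =
          k * (3 * b + 1) + 2 ^ (e' + 1) * (3 ^ (n + 1) * u) := by ring
      rw [h3, hb, ← hu]
      ring
    have h4 : TK k (k * b + 3 ^ n * (2 ^ (e' + 1) * u)) = 2 ^ e' * x := by
      unfold TK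
      rw [if_neg (by omega)]
      omega
    rw [h4, TK_halves]

/-- main theorem: growth exponent of the backward trees of the `3x+k` maps -/
theorem main_count_k (k : ℤ) (hk2 : k % 2 = 1) (hk3 : ¬ (3 : ℤ) ∣ k) (a : ℤ) (ha : ¬ (3 : ℤ) ∣ a)
    (σ : ℝ) (hσ : 0 < σ) (hσ1 : σ < 1) :
    ∃ c B₀ : ℝ, 0 < c ∧ 1 ≤ B₀ ∧ ∀ B : ℝ, B₀ ≤ B → ∃ F : Finset ℤ,
      (∀ z ∈ F, (|z| : ℝ) ≤ B ∧ ∃ j, (TK k)^[j] z = a) ∧ c * B ^ σ ≤ F.card := by
  classical
  obtain ⟨c, C, C₁, hc, hC, hC₁, hmain⟩ := uniform_words σ hσ hσ1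
  have hk0 : k ≠ 0 := by rintro rfl; simp at hk2
  have hkR : (1 : ℝ) ≤ |(k : ℝ)| := by
    have : (1 : ℤ) ≤ |k| := Int.one_le_abs hk0
    exact_mod_cast this
  set A : ℝ := |(k : ℝ)| * C₁ + |(a : ℝ)| + 1 with hA
  have hA1 : 1 ≤ A := by
    rw [hA]
    have : 0 ≤ |(k : ℝ)| * C₁ := by positivity
    have := abs_nonneg (a : ℝ)
    linarith
  have hA0 : 0 < A := by linarith
  refine ⟨c / A ^ σ, A, by positivity, hA1, ?_⟩
  intro B hB
  have hB0 : 0 < B := by linarith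
  set B' : ℝ := B / A with hB'
  have hB'1 : 1 ≤ B' := by rw [hB', le_div_iff₀ hA0]; linarith
  set N₀ : ℕ := ⌈C * (1 + Real.log B')⌉₊ with hN₀
  have hlB' : 0 ≤ Real.log B' := Real.log_nonneg hB'1
  have hN₀1 : 1 ≤ N₀ := by
    rw [hN₀, Nat.one_le_ceil_iff]
    positivity
  have hcop : IsCoprime k ((3 : ℤ) ^ N₀) := by
    apply IsCoprime.pow_right
    rw [Int.isCoprime_iff_gcd_eq_one]
    have := (Nat.Prime.coprime_iff_not_dvd Nat.prime_three (n := k.natAbs)).mpr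
      (fun h => hk3 (by rwa [← Int.natCast_dvd] at h))
    rw [Int.gcd_comm]
    exact this
  obtain ⟨u, v, huv⟩ := hcop
  set y : ℤ := a * u with hy
  have hyk : a - k * y = 3 ^ N₀ * (a * v) := by
    have : a = a * (u * k + v * 3 ^ N₀) := by rw [huv, mul_one]
    rw [hy]
    linear_combination this
  have hy3 : ¬ (3 : ℤ) ∣ y := by
    intro h
    apply ha
    have h1 : (3 : ℤ) ∣ 3 ^ N₀ * (a * v) := Dvd.dvd.mul_right (dvd_pow_self 3 (by omega)) _
    have h2 : (3 : ℤ) ∣ k * y := Dvd.dvd.mul_left h k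
    have h3 : a = 3 ^ N₀ * (a * v) + k * y := by linarith
    rw [h3]
    exact dvd_add h1 h2
  obtain ⟨E, n, s, G, h1, h2, h3, h4⟩ := hmain y hy3 B' hB'1
  have hn : n ≤ N₀ := by
    have : (n : ℝ) ≤ N₀ := h1.trans (Nat.le_ceil _)
    exact_mod_cast this
  set t : ℤ := 3 ^ (N₀ - n) * (a * v) with ht
  have hyt : a - k * y = 3 ^ n * t := by
    have e0 : (3 : ℤ) ^ N₀ = 3 ^ n * 3 ^ (N₀ - n) := by rw [← pow_add, Nat.add_sub_cancel' hn]
    rw [hyk, ht, e0]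
    ring
  have hinj : Function.Injective (fun z : ℤ => k * z + 2 ^ s * t) := by
    intro z z' h
    simp only [add_left_inj] at h
    exact mul_left_cancel₀ hk0 h
  refine ⟨G.image (fun z => k * z + 2 ^ s * t), ?_, ?_⟩
  · intro w hw
    rw [mem_image] at hw
    obtain ⟨z, hz, rfl⟩ := hw
    obtain ⟨h5, h6⟩ := h3 z hz
    refine ⟨?_, transfer_reach hk2 hyt h5⟩
    set ρ : ℝ := 2 ^ s / 3 ^ n with hρ
    have hρ0 : 0 < ρ := by rw [hρ]; positivity
    have hρB : ρ ≤ B' := by rw [hρ, div_le_iff₀ (by positivity)]; exact h2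
    have e1 : ((k * z + 2 ^ s * t : ℤ) : ℝ) = k * ((z : ℝ) - ρ * y) + ρ * a := by
      have e2 : (a : ℝ) - k * y = 3 ^ n * t := by exact_mod_cast hyt
      have e3 : (2 : ℝ) ^ s * t = ρ * ((a : ℝ) - k * y) := by
        rw [e2, hρ]; field_simp
      push_cast
      rw [e3]
      ring
    rw [e1]
    calc |(k : ℝ) * ((z : ℝ) - ρ * y) + ρ * a| ≤ |(k : ℝ)| * |(z : ℝ) - ρ * y| + ρ * |(a : ℝ)| := by
          refine (abs_add_le _ _).trans ?_
          rw [abs_mul, abs_mul, abs_of_pos hρ0]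
      _ ≤ |(k : ℝ)| * (C₁ * ρ) + ρ * |(a : ℝ)| := by gcongr
      _ = ρ * (|(k : ℝ)| * C₁ + |(a : ℝ)|) := by ring
      _ ≤ B' * A := by
          apply mul_le_mul hρB (by rw [hA]; linarith) (by positivity) (by linarith)
      _ = B := by rw [hB']; field_simp
  · rw [card_image_of_injective _ hinj]
    refine le_trans (le_of_eq ?_) h4
    rw [hB', Real.div_rpow hB0.le hA0.le]
    ring

end KGen

end Pool.Agent.H366R2
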