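import Pool.Agent.H366R2.KGen

/-! Consequences of the counting theorem for `3x+k` maps. -/

set_option autoImplicit false

namespace Pool.Agent.H366R2.KGen

open Filter Topology

/-- from counting bounds for all exponents `< 1` to the exponent `1` -/
theorem tendsto_one (P : ℤ → Prop)
    (h : ∀ σ : ℝ, 0 < σ → σ < 1 → ∃ c B₀ : ℝ, 0 < c ∧ 1 ≤ B₀ ∧ ∀ B : ℝ, B₀ ≤ B → ∃ F : Finset ℤ,
      (∀ z ∈ F, (|z| : ℝ) ≤ B ∧ P z) ∧ c * B ^ σ ≤ F.card) :
    Tendsto (fun x : ℕ => Real.log (({n : ℤ | |n| ≤ (x : ℤ) ∧ P n}.ncard : ℕ) : ℝ) /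
      Real.log (x : ℝ)) atTop (𝓝 1) := by
  have hfin : ∀ x : ℕ, {n : ℤ | |n| ≤ (x : ℤ) ∧ P n}.Finite := by
    intro x
    apply (Set.finite_Icc (-(x : ℤ)) x).subset
    rintro n ⟨hn, _⟩
    exact abs_le.1 hn
  have hlog : Tendsto (fun x : ℕ => Real.log (x : ℝ)) atTop atTop :=
    Real.tendsto_log_atTop.comp tendsto_natCast_atTop_atTop
  have hsmall : ∀ (C ε : ℝ), 0 < ε → ∀ᶠ x : ℕ in atTop, C < ε * Real.log (x : ℝ) := by
    intro C ε hε
    filter_upwards [hlog.eventually_gt_atTop (C / ε)] with x hx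
    rwa [div_lt_iff₀ hε, mul_comm] at hx
  rw [tendsto_order]
  constructor
  · intro a' ha1
    set σ : ℝ := max (1 / 2) ((1 + a') / 2) with hσ
    have hσ0 : 0 < σ := lt_of_lt_of_le (by norm_num) (le_max_left _ _)
    have hσ1 : σ < 1 := max_lt (by norm_num) (by linarith)
    have hσa : a' < σ := lt_of_lt_of_le (by linarith) (le_max_right _ _)
    obtain ⟨c, B₀, hc, hB₀, H⟩ := h σ hσ0 hσ1
    filter_upwards [hsmall (-Real.log c) (σ - a') (by linarith), hlog.eventually_gt_atTop 0,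
      tendsto_natCast_atTop_atTop.eventually_ge_atTop B₀] with x hx hx0 hx1
    have hx1' : (1 : ℝ) ≤ x := hB₀.trans hx1
    obtain ⟨F, hF1, hF2⟩ := H x hx1
    have hsub : (F : Set ℤ) ⊆ {n : ℤ | |n| ≤ (x : ℤ) ∧ P n} := by
      intro z hz
      obtain ⟨h1, h2⟩ := hF1 z hz
      exact ⟨by exact_mod_cast h1, h2⟩
    have hcard := Set.ncard_le_ncard hsub (hfin x)
    rw [Set.ncard_coe_finset] at hcard
    have hcard' : c * (x : ℝ) ^ σ ≤ (({n : ℤ | |n| ≤ (x : ℤ) ∧ P n}.ncard : ℕ) : ℝ) :=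
      hF2.trans (by exact_mod_cast hcard)
    have hx00 : (0 : ℝ) < x := by linarith
    have hl := Real.log_le_log (by positivity) hcard'
    rw [Real.log_mul (by positivity) (by positivity), Real.log_rpow hx00] at hl
    rw [lt_div_iff₀ hx0]
    linarith
  · intro a' ha1
    filter_upwards [hsmall (Real.log 3) (a' - 1) (by linarith), hlog.eventually_gt_atTop 0,
      eventually_ge_atTop 1] with x hx hx0 hx1
    have hx1' : (1 : ℝ) ≤ x := by exact_mod_cast hx1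
    have hsub : {n : ℤ | |n| ≤ (x : ℤ) ∧ P n} ⊆
        ((Finset.Icc (-(x : ℤ)) x : Finset ℤ) : Set ℤ) := by
      rintro n ⟨hn, _⟩
      rw [Finset.coe_Icc]
      exact abs_le.1 hn
    have hcard := Set.ncard_le_ncard hsub (Finset.finite_toSet _)
    rw [Set.ncard_coe_finset, Int.card_Icc] at hcard
    have hcard' : (({n : ℤ | |n| ≤ (x : ℤ) ∧ P n}.ncard : ℕ) : ℝ) ≤ 3 * x := by
      have : {n : ℤ | |n| ≤ (x : ℤ) ∧ P n}.ncard ≤ 3 * x := by omega
      exact_mod_cast this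
    have hl : Real.log (({n : ℤ | |n| ≤ (x : ℤ) ∧ P n}.ncard : ℕ) : ℝ) ≤
        Real.log 3 + Real.log x := by
      rw [← Real.log_mul (by norm_num) (by linarith)]
      rcases Nat.eq_zero_or_pos ({n : ℤ | |n| ≤ (x : ℤ) ∧ P n}.ncard) with h0 | h0
      · rw [h0]
        simp only [Nat.cast_zero, Real.log_zero]
        apply Real.log_nonneg
        linarith
      · exact Real.log_le_log (by exact_mod_cast h0) hcard'
    rw [div_lt_iff₀ hx0]
    linarith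

/-- elements of a backward orbit of a multiple of 3 -/
theorem dvd_back {k : ℤ} (hk2 : k % 2 = 1) (hk3 : ¬ (3 : ℤ) ∣ k) : ∀ (j : ℕ) (r : ℤ),
    (3 : ℤ) ∣ (TK k)^[j] r → r = 2 ^ j * (TK k)^[j] r := by
  have hone : ∀ r : ℤ, (3 : ℤ) ∣ TK k r → r = 2 * TK k r := by
    intro r h
    unfold TK at h ⊢
    split_ifs at h ⊢ with h0
    · omega
    · exfalso
      obtain ⟨t, ht⟩ := h
      apply hk3
      exact ⟨2 * t - r, by omega⟩
  intro j
  induction j with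
  | zero => intro r _; simp
  | succ j ih =>
    intro r h
    rw [Function.iterate_succ_apply] at h ⊢
    have h1 := ih _ h
    have h2 : (3 : ℤ) ∣ TK k r := by
      rw [h1]
      exact Dvd.dvd.mul_left h _
    have h3 := hone r h2
    rw [pow_succ]
    linear_combination h3 + 2 * h1

/-- a nonzero periodic point is not divisible by 3 -/
theorem periodic_not_dvd {k : ℤ} (hk2 : k % 2 = 1) (hk3 : ¬ (3 : ℤ) ∣ k) {p : ℤ} (hp : p ≠ 0)
    {m : ℕ} (hm : 1 ≤ m) (h : (TK k)^[m] p = p) : ¬ (3 : ℤ) ∣ p := by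
  intro h3
  have h1 := dvd_back hk2 hk3 m p (by rwa [h])
  rw [h] at h1
  have h2 : (2 : ℤ) ≤ 2 ^ m := by
    calc (2 : ℤ) = 2 ^ 1 := by norm_num
      _ ≤ 2 ^ m := pow_le_pow_right₀ (by norm_num) hm
  have h4 : (2 ^ m - 1) * p = 0 := by linarith
  rcases mul_eq_zero.mp h4 with h5 | h5
  · omega
  · exact hp h5

theorem cycle_k {k : ℤ} (hk2 : k % 2 = 1) : (TK k)^[2] k = k := by
  simp only [Function.iterate_succ, Function.iterate_zero, Function.comp_apply, id_eq]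
  have h1 : TK k k = 2 * k := by
    unfold TK
    rw [if_neg (by omega)]
    omega
  rw [h1]
  unfold TK
  rw [if_pos (by omega)]
  omega

/-- orbits containing `k` are eventually periodic -/
theorem evper_of {k : ℤ} (hk2 : k % 2 = 1) {n : ℤ} (h : ∃ j, (TK k)^[j] n = k) :
    ∃ m p : ℕ, 1 ≤ p ∧ (TK k)^[m + p] n = (TK k)^[m] n := by
  obtain ⟨j, hj⟩ := h
  refine ⟨j, 2, by norm_num, ?_⟩
  rw [add_comm, Function.iterate_add_apply, hj, cycle_k hk2]

theorem mod6 {k : ℤ} (hk : k % 6 = 1 ∨ k % 6 = 5) : k % 2 = 1 ∧ ¬ (3 : ℤ) ∣ k := by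
  omega

/-- the counting theorem with the real-valued counting function -/
theorem count_lower (k : ℤ) (hk : k % 6 = 1 ∨ k % 6 = 5) (a : ℤ) (ha : ¬ (3 : ℤ) ∣ a) :
    Tendsto (fun x : ℕ => Real.log (({n : ℤ | |n| ≤ (x : ℤ) ∧ ∃ j : ℕ, (TK k)^[j] n = a}.ncard : ℕ) : ℝ) /
      Real.log (x : ℝ)) atTop (𝓝 1) :=
  tendsto_one _ fun σ hσ hσ1 => main_count_k k (mod6 hk).1 (mod6 hk).2 a ha σ hσ hσ1

theorem evper_lower (k : ℤ) (hk : k % 6 = 1 ∨ k % 6 = 5) :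
    Tendsto (fun x : ℕ => Real.log (({n : ℤ | |n| ≤ (x : ℤ) ∧
      ∃ m p : ℕ, 1 ≤ p ∧ (TK k)^[m + p] n = (TK k)^[m] n}.ncard : ℕ) : ℝ) /
      Real.log (x : ℝ)) atTop (𝓝 1) := by
  apply tendsto_one
  intro σ hσ hσ1
  obtain ⟨c, B₀, hc, hB₀, H⟩ := main_count_k k (mod6 hk).1 (mod6 hk).2 k (mod6 hk).2 σ hσ hσ1
  refine ⟨c, B₀, hc, hB₀, fun B hB => ?_⟩
  obtain ⟨F, hF1, hF2⟩ := H B hB
  exact ⟨F, fun z hz => ⟨(hF1 z hz).1, evper_of (mod6 hk).1 (hF1 z hz).2⟩, hF2⟩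

end Pool.Agent.H366R2.KGen
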